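import Mathlib
import Pool.Agent.Y298.EX.Stm
import Pool.Agent.Y576.GA.Start
import Pool.Agent.Y604.GA.Pe

/-!
# The parameter at which the perturbed critical orbit meets the unperturbed one
-/

set_option autoImplicit false

open Set Filter Metric MeasureTheory Topology

namespace Pool.Agent.Y288.EX

open Pool.Agent.TH279.MD Pool.Agent.Y298.SH Pool.Agent.Y298.SH.CD Pool.Agent.Y298.EX

theorem gg_eq (d : ℕ) (a : ℂ → ℂ) (n : ℕ) :
    gg d a n = Pool.Agent.Y298.GA.GG d (fun w z => w + a z) n := rfl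

/-- Two Cauchy estimates. -/
theorem cauchy2 {F : ℂ → ℂ} {c z : ℂ} {s M : ℝ} (hs : 0 < s)
    (hF : DifferentiableOn ℂ F (ball c (s / 2))) (hM : ∀ w ∈ ball c (s / 2), ‖F w - z‖ ≤ M) :
    ∀ w ∈ ball c (s / 8), ‖deriv F w - deriv F c‖ ≤ 64 * M / s ^ 2 * ‖w - c‖ := by
  have h1 : ∀ w ∈ ball c (s / 4), ‖deriv F w‖ ≤ 8 * M / s := by
    intro w hw
    rw [mem_ball, dist_eq_norm] at hw
    have h2 : closedBall w (s / 8) ⊆ ball c (s / 2) := by
      intro x hx
      rw [mem_closedBall, dist_eq_norm] at hx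
      rw [mem_ball, dist_eq_norm]
      calc ‖x - c‖ = ‖(x - w) + (w - c)‖ := by congr 1; ring
        _ ≤ ‖x - w‖ + ‖w - c‖ := norm_add_le _ _
        _ < s / 2 := by linarith
    have h3 : DiffContOnCl ℂ (fun x => F x - z) (ball w (s / 8)) := by
      refine DifferentiableOn.diffContOnCl ?_
      rw [closure_ball w (by positivity)]
      exact (hF.mono h2).sub (differentiableOn_const z)
    have h4 := Complex.norm_deriv_le_of_forall_mem_sphere_norm_le (by positivity : 0 < s / 8) h3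
      (C := M) (fun x hx => hM x (h2 (sphere_subset_closedBall hx)))
    rw [deriv_sub_const] at h4
    refine h4.trans (le_of_eq ?_)
    field_simp
  have hM0 : 0 ≤ M := (norm_nonneg _).trans (hM c (mem_ball_self (by positivity)))
  have h5 : ∀ w ∈ ball c (s / 8), ‖deriv (deriv F) w‖ ≤ 64 * M / s ^ 2 := by
    intro w hw
    rw [mem_ball, dist_eq_norm] at hw
    have h2 : closedBall w (s / 8) ⊆ ball c (s / 4) := by
      intro x hx
      rw [mem_closedBall, dist_eq_norm] at hx
      rw [mem_ball, dist_eq_norm]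
      calc ‖x - c‖ = ‖(x - w) + (w - c)‖ := by congr 1; ring
        _ ≤ ‖x - w‖ + ‖w - c‖ := norm_add_le _ _
        _ < s / 4 := by linarith
    have h3 : DiffContOnCl ℂ (deriv F) (ball w (s / 8)) := by
      refine DifferentiableOn.diffContOnCl ?_
      rw [closure_ball w (by positivity)]
      exact (hF.deriv isOpen_ball).mono (h2.trans (ball_subset_ball (by linarith)))
    have h4 := Complex.norm_deriv_le_of_forall_mem_sphere_norm_le (by positivity : 0 < s / 8) h3
      (C := 8 * M / s) (fun x hx => h1 x (h2 (sphere_subset_closedBall hx)))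
    refine h4.trans (le_of_eq ?_)
    field_simp
    ring
  intro w hw
  have h6 : ∀ x ∈ ball c (s / 8), DifferentiableAt ℂ (deriv F) x := fun x hx =>
    (hF.deriv isOpen_ball).differentiableAt (isOpen_ball.mem_nhds
      (ball_subset_ball (by linarith) hx))
  exact (convex_ball c (s / 8)).norm_image_sub_le_of_norm_deriv_le h6 h5
    (mem_ball_self (by positivity)) hw

theorem t (h : S_INV) : S_HIT := by
  intro d C₁ lam θ B Ca hd hC1 hlam hθ hPC c₀ hc
  obtain ⟨κ', e₀, s₁, J, hκ', he₀, hs₁, hs₁1, hst⟩ :=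
    Pool.Agent.Y576.GA.start Pool.Agent.Y604.GA.pe d C₁ lam θ B Ca hd hC1 hlam hθ hPC c₀ hc
  have hCa : 0 < Ca := by linarith [hPC.Ca1]
  set μ : ℝ := min (1 / 8) (κ' / (256 * Ca)) with hμ
  have hμ0 : 0 < μ := lt_min (by norm_num) (by positivity)
  have hμ1 : μ ≤ 1 / 8 := min_le_left _ _
  have hμ2 : μ ≤ κ' / (256 * Ca) := min_le_right _ _
  refine ⟨κ', min (1 / 4) (κ' * μ / (4 * Ca)), s₁, J, hκ', lt_min (by norm_num) (by positivity),
    min_le_left _ _, hs₁, hs₁1, ?_⟩
  set η : ℝ := min (1 / 4) (κ' * μ / (4 * Ca)) with hη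
  have hη0 : 0 < η := lt_min (by norm_num) (by positivity)
  have hη1 : η ≤ 1 / 4 := min_le_left _ _
  have hη2 : η ≤ κ' * μ / (4 * Ca) := min_le_right _ _
  intro a s k hs hs1 hJ hpass ha
  have hs1' : s ≤ 1 := hs1.trans hs₁1
  have hηs : η * s ≤ s / 4 := by nlinarith
  have hP : 0 < Pd d c₀ k := hc.Pd_pos k
  have hda : DifferentiableOn ℂ a (ball (0 : ℂ) 8) := ha.hol.differentiableOn
  have hS := hst c₀ hc (by rw [sub_self, norm_zero]; exact he₀.le) a s k hs hs1 hJ hpass hda
    (fun z hz => (ha.le z hz).trans (by linarith)) (fun z hz => (ha.dle z hz).trans (by linarith))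
  set F : ℂ → ℂ := gg d a k with hFdef
  have hFd : DifferentiableOn ℂ F (ball c₀ (s / 2)) := fun v hv =>
    (hS v hv).1.differentiableWithinAt
  have hFl : ∀ v ∈ ball c₀ (s / 2), κ' * Pd d c₀ k ≤ ‖deriv F v‖ := fun v hv => (hS v hv).2
  have hF1 : ∀ v ∈ ball c₀ (s / 2), ‖F v - zz d c₀ k‖ ≤ Ca * s * Pd d c₀ k := by
    intro v hv
    rw [mem_ball, dist_eq_norm] at hv
    refine (hPC.pass c₀ hc (fun z => v + a z) s k hs hs1' ?_ ?_ ?_ hpass v ?_ k le_rfl).1
    · exact (differentiableOn_const v).add hda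
    · intro z hz
      have h1 := ha.le z hz
      calc ‖v + a z - c₀‖ = ‖(v - c₀) + a z‖ := by congr 1; ring
        _ ≤ ‖v - c₀‖ + ‖a z‖ := norm_add_le _ _
        _ ≤ s := by linarith
    · intro z hz
      have h1 := ha.dle z hz
      have h2 : deriv (fun z => v + a z) z = deriv a z := by rw [deriv_const_add]
      rw [h2]
      linarith
    · rw [mem_ball, dist_eq_norm]
      linarith
  have hF0 : ‖F c₀ - zz d c₀ k‖ ≤ Ca * (η * s) * Pd d c₀ k := by
    refine (hPC.pass c₀ hc (fun z => c₀ + a z) (η * s) k (by positivity) (by linarith) ?_ ?_ ?_ ?_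
      c₀ ?_ k le_rfl).1
    · exact (differentiableOn_const c₀).add hda
    · intro z hz
      have h1 := ha.le z hz
      rwa [add_sub_cancel_left]
    · intro z hz
      have h1 := ha.dle z hz
      have h2 : deriv (fun z => c₀ + a z) z = deriv a z := by rw [deriv_const_add]
      rw [h2]
      exact h1
    · intro j hj
      refine le_trans ?_ (hpass j hj)
      have hB : 0 < B := lt_of_lt_of_le hCa hPC.CaB
      have h1 : 0 < θ := by linarith
      have h2 : 0 < Pd d c₀ j := hc.Pd_pos j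
      have h3 : η * s ≤ s := by linarith
      gcongr
    · exact mem_ball_self (by positivity)
  have hc0 : c₀ ∈ ball c₀ (s / 2) := mem_ball_self (by positivity)
  set D : ℂ := deriv F c₀ with hD
  have hD1 : κ' * Pd d c₀ k ≤ ‖D‖ := hFl c₀ hc0
  have hκP : 0 < κ' * Pd d c₀ k := by positivity
  have hD0 : D ≠ 0 := by
    intro h0
    rw [h0, norm_zero] at hD1
    linarith
  have hsub : ball c₀ (s * μ) ⊆ ball c₀ (s / 8) := ball_subset_ball (by nlinarith)
  have hsub2 : ball c₀ (s / 8) ⊆ ball c₀ (s / 2) := ball_subset_ball (by linarith)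
  obtain ⟨G, hG, hG1⟩ := h F c₀ D (s * μ) (by positivity) hD0 (hFd.mono (hsub.trans hsub2))
    (by
      intro w hw
      have h1 := cauchy2 hs hFd hF1 w (hsub hw)
      rw [mem_ball, dist_eq_norm] at hw
      refine h1.trans ?_
      have h2 : 64 * (Ca * s * Pd d c₀ k) / s ^ 2 * ‖w - c₀‖ ≤
          64 * (Ca * s * Pd d c₀ k) / s ^ 2 * (s * (κ' / (256 * Ca))) := by
        gcongr
        exact hw.le.trans (by gcongr)
      refine h2.trans ?_
      have h3 : 64 * (Ca * s * Pd d c₀ k) / s ^ 2 * (s * (κ' / (256 * Ca))) =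
          1 / 4 * (κ' * Pd d c₀ k) := by
        field_simp
        norm_num
      rw [h3]
      gcongr)
  have hy : zz d c₀ k ∈ ball (F c₀) (‖D‖ * (s * μ) / 2) := by
    rw [mem_ball, dist_eq_norm, norm_sub_rev]
    refine hF0.trans_lt ?_
    have h1 : Ca * (η * s) * Pd d c₀ k ≤ Ca * ((κ' * μ / (4 * Ca)) * s) * Pd d c₀ k := by gcongr
    have h2 : Ca * ((κ' * μ / (4 * Ca)) * s) * Pd d c₀ k = (κ' * Pd d c₀ k) * (s * μ) / 4 := by
      field_simp
    have h3 : (κ' * Pd d c₀ k) * (s * μ) / 4 < (κ' * Pd d c₀ k) * (s * μ) / 2 := by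
      have : 0 < (κ' * Pd d c₀ k) * (s * μ) := by positivity
      linarith
    have h4 : (κ' * Pd d c₀ k) * (s * μ) / 2 ≤ ‖D‖ * (s * μ) / 2 := by gcongr
    linarith
  obtain ⟨h5, h6⟩ := hG1 _ hy
  exact ⟨G (zz d c₀ k), hsub h5, h6, hFl _ (hsub2 (hsub h5))⟩

end Pool.Agent.Y288.EX
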